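import Mathlib

/-!
# A criterion for isomorphisms of rings
-/

set_option autoImplicit false

open TensorProduct

namespace Pool.Agent.Q221.FA

theorem fp_of {K A B : Type} [CommRing K] [CommRing A] [CommRing B] [Algebra K A] [Algebra K B]
    [Algebra.FiniteType K A] [Algebra.FinitePresentation K B] (f : A →ₐ[K] B) :
    f.toRingHom.FinitePresentation := by
  letI := f.toRingHom.toAlgebra
  haveI : IsScalarTower K A B := IsScalarTower.of_algebraMap_eq' f.comp_algebraMap.symm
  exact Algebra.FinitePresentation.of_restrict_scalars_finitePresentation K A B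

/-- A ring homomorphism of finite presentation which satisfies the infinitesimal lifting property, is
an epimorphism, and induces surjections on points over algebraically closed fields, is bijective. -/
theorem bij_of {A B : Type} [CommRing A] [CommRing B] (f : A →+* B) (hfp : f.FinitePresentation)
    (h1 : ∀ (T : Type) [CommRing T] (I : Ideal T), I ^ 2 = ⊥ → ∀ (α : A →+* T) (β : B →+* T ⧸ I),
      β.comp f = (Ideal.Quotient.mk I).comp α →
        ∃ γ : B →+* T, γ.comp f = α ∧ (Ideal.Quotient.mk I).comp γ = β)
    (h2 : ∀ (T : Type) [CommRing T] (α β : B →+* T), α.comp f = β.comp f → α = β)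
    (h3 : ∀ (L : Type) [Field L] [IsAlgClosed L] (α : A →+* L),
      ∃ β : B →+* L, β.comp f = α) : Function.Bijective f := by
  letI := f.toAlgebra
  haveI hsm : Algebra.FormallySmooth A B := by
    rw [Algebra.FormallySmooth.iff_comp_surjective]
    intro T _ _ I hI β
    obtain ⟨γ, hγ, hγ'⟩ := h1 T I hI (algebraMap A T) β.toRingHom (by
      ext a
      exact β.commutes a)
    refine ⟨⟨γ, fun a => congrArg (fun g => g a) hγ⟩, ?_⟩
    ext b
    exact congrArg (fun g => g b) hγ'
  haveI hun : Algebra.FormallyUnramified A B := by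
    rw [Algebra.FormallyUnramified.iff_comp_injective]
    intro T _ _ I hI γ γ' _
    have h4 := h2 T γ.toRingHom γ'.toRingHom (by
      ext a
      exact (γ.commutes a).trans (γ'.commutes a).symm)
    ext b
    exact congrArg (fun g => g b) h4
  haveI : Algebra.FormallyEtale A B := Algebra.FormallyEtale.of_formallyUnramified_and_formallySmooth
  haveI hfp' : Algebra.FinitePresentation A B := hfp
  haveI : Algebra.Etale A B := ⟨inferInstance, hfp'⟩
  haveI : Module.Flat A B := inferInstance
  haveI : Module.FaithfullyFlat A B := by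
    refine ⟨fun m hm htop => ?_⟩
    letI : Field (A ⧸ m) := Ideal.Quotient.field m
    obtain ⟨β, hβ⟩ := h3 (AlgebraicClosure (A ⧸ m))
      ((algebraMap (A ⧸ m) (AlgebraicClosure (A ⧸ m))).comp (Ideal.Quotient.mk m))
    have h4 : (1 : B) ∈ (m • (⊤ : Submodule A B)) := by
      rw [htop]
      trivial
    have h5 : ∀ b ∈ (m • (⊤ : Submodule A B)), β b = 0 := by
      intro b hb
      refine Submodule.smul_induction_on hb (fun a ha b _ => ?_) fun x y hx hy => ?_
      · have h6 : β (f a) = 0 := by
          have h7 := congrArg (fun g => g a) hβ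
          have h8 : Ideal.Quotient.mk m a = 0 := Ideal.Quotient.eq_zero_iff_mem.2 ha
          have h9 : β (f a) = algebraMap (A ⧸ m) (AlgebraicClosure (A ⧸ m))
            (Ideal.Quotient.mk m a) := h7
          rw [h9, h8, map_zero]
        have h7 : a • b = f a * b := Algebra.smul_def a b
        rw [h7, map_mul, h6, zero_mul]
      · rw [map_add, hx, hy, add_zero]
    have h6 := h5 1 h4
    rw [map_one] at h6
    exact one_ne_zero h6
  have h4 : (Algebra.TensorProduct.includeLeft : B →ₐ[A] B ⊗[A] B).toRingHom =
      (Algebra.TensorProduct.includeRight : B →ₐ[A] B ⊗[A] B).toRingHom := by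
    refine h2 _ _ _ ?_
    ext a
    change (Algebra.TensorProduct.includeLeft : B →ₐ[A] B ⊗[A] B) (algebraMap A B a) =
      (Algebra.TensorProduct.includeRight : B →ₐ[A] B ⊗[A] B) (algebraMap A B a)
    rw [AlgHom.commutes, AlgHom.commutes]
  have h5 : ∀ b : B, (b ⊗ₜ[A] (1 : B)) = (1 : B) ⊗ₜ[A] b := fun b =>
    congrArg (fun g => g b) h4
  exact Module.FaithfullyFlat.bijective_of_tensorProduct (R := A) (S := B) (T := B) (by
    constructor
    · intro x y hxy
      have h6 := congrArg (Algebra.TensorProduct.lmul' A (S := B)) hxy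
      simpa using h6
    · intro z
      induction z using TensorProduct.induction_on with
      | zero => exact ⟨0, map_zero _⟩
      | tmul x y =>
        refine ⟨x * y, ?_⟩
        change (x * y) ⊗ₜ[A] (1 : B) = x ⊗ₜ[A] y
        have h6 : (x * y) ⊗ₜ[A] (1 : B) = (x ⊗ₜ[A] (1 : B)) * (y ⊗ₜ[A] (1 : B)) := by
          rw [Algebra.TensorProduct.tmul_mul_tmul, mul_one]
        rw [h6, h5 y, Algebra.TensorProduct.tmul_mul_tmul, mul_one, one_mul]
      | add x y hx hy =>
        obtain ⟨u, hu⟩ := hx
        obtain ⟨w, hw⟩ := hy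
        exact ⟨u + w, by rw [map_add, hu, hw]⟩)

end Pool.Agent.Q221.FA
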