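import Mathlib

/-!
# Divided differences of noncommutative polynomials
-/

set_option autoImplicit false

namespace Pool.Agent.Q221.FA

variable {K : Type} [Field K] {ι : Type}

section Delta

variable {S : Type} [Ring S] [Algebra K S]

/-- The upper right entry of the value of `f` at the matrices `(X i, H i; 0, Y i)`. -/
noncomputable def delta (X Y H : ι → S) (f : FreeAlgebra K ι) : S :=
  (FreeAlgebra.lift K (fun i => (!![X i, H i; 0, Y i] : Matrix (Fin 2) (Fin 2) S)) f) 0 1

theorem block (X Y H : ι → S) (f : FreeAlgebra K ι) :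
    (FreeAlgebra.lift K (fun i => (!![X i, H i; 0, Y i] : Matrix (Fin 2) (Fin 2) S)) f) 0 0 =
        FreeAlgebra.lift K X f ∧
      (FreeAlgebra.lift K (fun i => (!![X i, H i; 0, Y i] : Matrix (Fin 2) (Fin 2) S)) f) 1 0 =
        0 ∧
      (FreeAlgebra.lift K (fun i => (!![X i, H i; 0, Y i] : Matrix (Fin 2) (Fin 2) S)) f) 1 1 =
        FreeAlgebra.lift K Y f := by
  induction f using FreeAlgebra.induction with
  | grade0 r =>
    simp only [AlgHom.commutes]
    simp [Matrix.algebraMap_matrix_apply]
  | grade1 x => simp
  | mul a b ha hb =>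
    obtain ⟨h1, h2, h3⟩ := ha
    obtain ⟨h4, h5, h6⟩ := hb
    simp only [map_mul, Matrix.mul_apply, Fin.sum_univ_two, h1, h2, h3, h4, h5, h6, mul_zero,
      zero_mul, add_zero, zero_add, and_self]
  | add a b ha hb =>
    obtain ⟨h1, h2, h3⟩ := ha
    obtain ⟨h4, h5, h6⟩ := hb
    simp only [map_add, Matrix.add_apply, h1, h2, h3, h4, h5, h6, add_zero, and_self]

variable (X Y H : ι → S)

theorem delta_algebraMap (r : K) : delta X Y H (algebraMap K (FreeAlgebra K ι) r) = 0 := by
  rw [delta, AlgHom.commutes, Matrix.algebraMap_matrix_apply]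
  simp

theorem delta_ι (i : ι) : delta X Y H (FreeAlgebra.ι K i) = H i := by
  simp [delta]

theorem delta_add (f g : FreeAlgebra K ι) :
    delta X Y H (f + g) = delta X Y H f + delta X Y H g := by
  simp [delta]

theorem delta_mul (f g : FreeAlgebra K ι) :
    delta X Y H (f * g) =
      FreeAlgebra.lift K X f * delta X Y H g + delta X Y H f * FreeAlgebra.lift K Y g := by
  rw [delta, map_mul, Matrix.mul_apply, Fin.sum_univ_two, (block X Y H f).1, (block X Y H g).2.2]
  rfl

theorem delta_smul (r : K) (f : FreeAlgebra K ι) :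
    delta X Y H (r • f) = r • delta X Y H f := by
  simp [delta]

theorem delta_zero : delta X Y H (0 : FreeAlgebra K ι) = 0 := by
  simp [delta]

theorem delta_sub_self (f : FreeAlgebra K ι) :
    delta X Y (fun i => X i - Y i) f = FreeAlgebra.lift K X f - FreeAlgebra.lift K Y f := by
  induction f using FreeAlgebra.induction with
  | grade0 r => rw [delta_algebraMap, AlgHom.commutes, AlgHom.commutes, sub_self]
  | grade1 x => rw [delta_ι, FreeAlgebra.lift_ι_apply, FreeAlgebra.lift_ι_apply]
  | mul a b ha hb =>
    rw [delta_mul, ha, hb, map_mul, map_mul]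
    noncomm_ring
  | add a b ha hb =>
    rw [delta_add, ha, hb, map_add, map_add]
    abel

theorem lift_comp (ψ : FreeAlgebra K ι →ₐ[K] FreeAlgebra K ι) (f : FreeAlgebra K ι) :
    FreeAlgebra.lift K X (ψ f) =
      FreeAlgebra.lift K (fun i => FreeAlgebra.lift K X (ψ (FreeAlgebra.ι K i))) f := by
  have h : (FreeAlgebra.lift K X).comp ψ =
      FreeAlgebra.lift K (fun i => FreeAlgebra.lift K X (ψ (FreeAlgebra.ι K i))) := by
    apply FreeAlgebra.hom_ext
    funext i
    simp
  exact congrArg (fun g => g f) h

theorem delta_comp (ψ : FreeAlgebra K ι →ₐ[K] FreeAlgebra K ι) (f : FreeAlgebra K ι) :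
    delta X Y H (ψ f) =
      delta (fun i => FreeAlgebra.lift K X (ψ (FreeAlgebra.ι K i)))
        (fun i => FreeAlgebra.lift K Y (ψ (FreeAlgebra.ι K i)))
        (fun i => delta X Y H (ψ (FreeAlgebra.ι K i))) f := by
  induction f using FreeAlgebra.induction with
  | grade0 r => rw [AlgHom.commutes, delta_algebraMap, delta_algebraMap]
  | grade1 x => rw [delta_ι]
  | mul a b ha hb => rw [map_mul, delta_mul, delta_mul, ha, hb, lift_comp, lift_comp Y]
  | add a b ha hb => rw [map_add, delta_add, delta_add, ha, hb]

theorem delta_map {S' : Type} [Ring S'] [Algebra K S'] (g : S →ₐ[K] S') (f : FreeAlgebra K ι) :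
    delta (fun i => g (X i)) (fun i => g (Y i)) (fun i => g (H i)) f = g (delta X Y H f) := by
  have h1 : ∀ (X : ι → S) (f : FreeAlgebra K ι),
      FreeAlgebra.lift K (fun i => g (X i)) f = g (FreeAlgebra.lift K X f) := by
    intro X f
    have h : FreeAlgebra.lift K (fun i => g (X i)) = g.comp (FreeAlgebra.lift K X) := by
      apply FreeAlgebra.hom_ext
      funext i
      simp
    rw [h]
    rfl
  induction f using FreeAlgebra.induction with
  | grade0 r => rw [delta_algebraMap, delta_algebraMap, map_zero]
  | grade1 x => rw [delta_ι, delta_ι]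
  | mul a b ha hb => rw [delta_mul, delta_mul, ha, hb, h1, h1, map_add, map_mul, map_mul]
  | add a b ha hb => rw [delta_add, delta_add, ha, hb, map_add]

theorem lift_map {S' : Type} [Ring S'] [Algebra K S'] (g : S →ₐ[K] S') (f : FreeAlgebra K ι) :
    FreeAlgebra.lift K (fun i => g (X i)) f = g (FreeAlgebra.lift K X f) := by
  have h : FreeAlgebra.lift K (fun i => g (X i)) = g.comp (FreeAlgebra.lift K X) := by
    apply FreeAlgebra.hom_ext
    funext i
    simp
  rw [h]
  rfl

variable {R : Type} [CommRing R] [Algebra R S]

theorem delta_add_right (H' : ι → S) (f : FreeAlgebra K ι) :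
    delta X Y (fun i => H i + H' i) f = delta X Y H f + delta X Y H' f := by
  induction f using FreeAlgebra.induction with
  | grade0 r => rw [delta_algebraMap, delta_algebraMap, delta_algebraMap, add_zero]
  | grade1 x => rw [delta_ι, delta_ι, delta_ι]
  | mul a b ha hb =>
    rw [delta_mul, delta_mul, delta_mul, ha, hb]
    noncomm_ring
  | add a b ha hb =>
    rw [delta_add, delta_add, delta_add, ha, hb]
    abel

theorem delta_smul_right (r : R) (f : FreeAlgebra K ι) :
    delta X Y (fun i => r • H i) f = r • delta X Y H f := by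
  induction f using FreeAlgebra.induction with
  | grade0 c => rw [delta_algebraMap, delta_algebraMap, smul_zero]
  | grade1 x => rw [delta_ι, delta_ι]
  | mul a b ha hb =>
    rw [delta_mul, delta_mul, ha, hb, smul_add, mul_smul_comm, smul_mul_assoc]
  | add a b ha hb => rw [delta_add, delta_add, ha, hb, smul_add]

/-- The monomial with exponents `l`. -/
noncomputable def word (K : Type) [Field K] {ι : Type} (l : List ι) : FreeAlgebra K ι :=
  (l.map (FreeAlgebra.ι K)).prod

theorem word_cons (i : ι) (l : List ι) : word K (i :: l) = FreeAlgebra.ι K i * word K l := by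
  rw [word, word, List.map_cons, List.prod_cons]

theorem lift_word (r : R) (l : List ι) :
    FreeAlgebra.lift K (fun i => r • X i) (word K l) =
      r ^ l.length • FreeAlgebra.lift K X (word K l) := by
  induction l with
  | nil => simp [word]
  | cons i l ih =>
    rw [word_cons, map_mul, map_mul, ih, FreeAlgebra.lift_ι_apply, FreeAlgebra.lift_ι_apply,
      smul_mul_smul_comm, List.length_cons, pow_succ']

theorem delta_word (r : R) (l : List ι) :
    delta (fun i => r • X i) (fun i => r • Y i) H (word K l) =
      r ^ (l.length - 1) • delta X Y H (word K l) := by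
  induction l with
  | nil =>
    have h : word K ([] : List ι) = algebraMap K (FreeAlgebra K ι) 1 := by simp [word]
    rw [h, delta_algebraMap, delta_algebraMap, smul_zero]
  | cons i l ih =>
    rw [word_cons, delta_mul, delta_mul, ih, lift_word, delta_ι, delta_ι,
      FreeAlgebra.lift_ι_apply, FreeAlgebra.lift_ι_apply, List.length_cons, Nat.add_sub_cancel,
      smul_add, mul_smul_comm]
    congr 1
    · rcases l with _ | ⟨j, l⟩
      · have h : word K ([] : List ι) = algebraMap K (FreeAlgebra K ι) 1 := by simp [word]
        rw [h, delta_algebraMap, mul_zero, smul_zero, mul_zero, smul_zero]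
      · rw [smul_mul_assoc, smul_smul, List.length_cons, Nat.add_sub_cancel, ← pow_succ]
    · rw [mul_smul_comm]

end Delta

end Pool.Agent.Q221.FA
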