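import Pool.Agent.Q221.FA.Delta

/-!
# Good endomorphisms of free algebras
-/

set_option autoImplicit false

open Polynomial

set_option linter.unusedSectionVars false

namespace Pool.Agent.Q221.FA

variable {K : Type} [Field K] {ι : Type}

/-- The span of the monomials of degree at least `m`: the `m`-th power of the ideal generated by the
variables. -/
def idealPow (K ι : Type) [Field K] (m : ℕ) : Submodule K (FreeAlgebra K ι) :=
  Submodule.span K {w | ∃ l : List ι, m ≤ l.length ∧ w = (l.map (FreeAlgebra.ι K)).prod}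

/-- The endomorphism `φ` is good: for every `m ≥ 1` it is `ψ ∘ θ` with an automorphism `θ` and an
endomorphism `ψ` which is the identity modulo `I ^ m`. -/
def IsGood (φ : FreeAlgebra K ι →ₐ[K] FreeAlgebra K ι) : Prop :=
  ∀ m : ℕ, 1 ≤ m → ∃ (ψ : FreeAlgebra K ι →ₐ[K] FreeAlgebra K ι)
    (θ : FreeAlgebra K ι ≃ₐ[K] FreeAlgebra K ι), φ = ψ.comp θ.toAlgHom ∧
      ∀ i, ψ (FreeAlgebra.ι K i) - FreeAlgebra.ι K i ∈ idealPow K ι m

/-- The span of the monomials of degree at most `d`. -/
def low (K ι : Type) [Field K] (d : ℕ) : Submodule K (FreeAlgebra K ι) :=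
  Submodule.span K {w | ∃ l : List ι, l.length ≤ d ∧ w = (l.map (FreeAlgebra.ι K)).prod}

theorem low_mono {d d' : ℕ} (h : d ≤ d') : low K ι d ≤ low K ι d' := by
  refine Submodule.span_mono ?_
  rintro _ ⟨l, hl, rfl⟩
  exact ⟨l, hl.trans h, rfl⟩

theorem exists_low (f : FreeAlgebra K ι) : ∃ d, f ∈ low K ι d := by
  induction f using FreeAlgebra.induction with
  | grade0 r =>
    refine ⟨0, ?_⟩
    rw [Algebra.algebraMap_eq_smul_one]
    exact Submodule.smul_mem _ _ (Submodule.subset_span ⟨[], le_rfl, by simp⟩)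
  | grade1 x => exact ⟨1, Submodule.subset_span ⟨[x], le_rfl, by simp⟩⟩
  | mul a b ha hb =>
    obtain ⟨d, hd⟩ := ha
    obtain ⟨e, he⟩ := hb
    refine ⟨d + e, ?_⟩
    have h1 : low K ι d * low K ι e ≤ low K ι (d + e) := by
      rw [low, low, Submodule.span_mul_span]
      refine Submodule.span_mono ?_
      rintro _ ⟨_, ⟨l, hl, rfl⟩, _, ⟨l', hl', rfl⟩, rfl⟩
      refine ⟨l ++ l', ?_, ?_⟩
      · rw [List.length_append]
        omega
      · simp
    exact h1 (Submodule.mul_mem_mul hd he)
  | add a b ha hb =>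
    obtain ⟨d, hd⟩ := ha
    obtain ⟨e, he⟩ := hb
    exact ⟨max d e, Submodule.add_mem _ (low_mono (le_max_left _ _) hd)
      (low_mono (le_max_right _ _) he)⟩

section Op

variable {N : ℕ} {R : Type} [CommRing R] [Algebra K R]

/-- The tuple of matrices with entries `v`. -/
def toM (v : ι × Fin N × Fin N → R) : ι → Matrix (Fin N) (Fin N) R :=
  fun i => Matrix.of fun a b => v (i, a, b)

/-- The divided difference as a linear map. -/
noncomputable def op (φ : FreeAlgebra K ι →ₐ[K] FreeAlgebra K ι)
    (X Y : ι → Matrix (Fin N) (Fin N) R) :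
    (ι × Fin N × Fin N → R) →ₗ[R] (ι × Fin N × Fin N → R) where
  toFun v := fun q => delta X Y (toM v) (φ (FreeAlgebra.ι K q.1)) q.2.1 q.2.2
  map_add' v w := by
    funext q
    have h := delta_add_right X Y (toM v) (toM w) (φ (FreeAlgebra.ι K q.1))
    exact congrFun (congrFun h q.2.1) q.2.2
  map_smul' r v := by
    funext q
    have h := delta_smul_right X Y (toM v) r (φ (FreeAlgebra.ι K q.1))
    exact congrFun (congrFun h q.2.1) q.2.2

theorem op_comp (ψ θ : FreeAlgebra K ι →ₐ[K] FreeAlgebra K ι)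
    (X Y : ι → Matrix (Fin N) (Fin N) R) :
    op (ψ.comp θ) X Y =
      op θ (fun i => FreeAlgebra.lift K X (ψ (FreeAlgebra.ι K i)))
        (fun i => FreeAlgebra.lift K Y (ψ (FreeAlgebra.ι K i))) ∘ₗ op ψ X Y := by
  refine LinearMap.ext fun v => funext fun q => ?_
  have h := delta_comp X Y (toM v) ψ (θ (FreeAlgebra.ι K q.1))
  exact congrFun (congrFun h q.2.1) q.2.2

theorem op_id (X Y : ι → Matrix (Fin N) (Fin N) R) :
    op (AlgHom.id K (FreeAlgebra K ι)) X Y = LinearMap.id := by
  refine LinearMap.ext fun v => funext fun q => ?_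
  have h := delta_ι X Y (toM v) q.1 (K := K)
  exact congrFun (congrFun h q.2.1) q.2.2

variable [Fintype ι] [DecidableEq ι]

theorem det_comp (ψ θ : FreeAlgebra K ι →ₐ[K] FreeAlgebra K ι)
    (X Y : ι → Matrix (Fin N) (Fin N) R) :
    (LinearMap.toMatrix' (op (ψ.comp θ) X Y)).det =
      (LinearMap.toMatrix' (op θ (fun i => FreeAlgebra.lift K X (ψ (FreeAlgebra.ι K i)))
        (fun i => FreeAlgebra.lift K Y (ψ (FreeAlgebra.ι K i))))).det *
      (LinearMap.toMatrix' (op ψ X Y)).det := by
  rw [op_comp, LinearMap.toMatrix'_comp, Matrix.det_mul]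

theorem isUnit_det (θ : FreeAlgebra K ι ≃ₐ[K] FreeAlgebra K ι)
    (X Y : ι → Matrix (Fin N) (Fin N) R) :
    IsUnit (LinearMap.toMatrix' (op θ.toAlgHom X Y)).det := by
  have h1 := det_comp θ.toAlgHom θ.symm.toAlgHom X Y
  have h2 : θ.toAlgHom.comp θ.symm.toAlgHom = AlgHom.id K (FreeAlgebra K ι) := by
    ext i
    simp
  rw [h2, op_id, LinearMap.toMatrix'_id, Matrix.det_one] at h1
  exact IsUnit.of_mul_eq_one_right _ h1.symm

theorem det_map {R' : Type} [CommRing R'] [Algebra K R'] (g : R →ₐ[K] R')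
    (φ : FreeAlgebra K ι →ₐ[K] FreeAlgebra K ι) (X Y : ι → Matrix (Fin N) (Fin N) R) :
    (LinearMap.toMatrix' (op φ (fun i => (X i).map g) (fun i => (Y i).map g))).det =
      g (LinearMap.toMatrix' (op φ X Y)).det := by
  have h1 : LinearMap.toMatrix' (op φ (fun i => (X i).map g) (fun i => (Y i).map g)) =
      (g : R →+* R').mapMatrix (LinearMap.toMatrix' (op φ X Y)) := by
    ext q q'
    rw [RingHom.mapMatrix_apply, Matrix.map_apply, LinearMap.toMatrix'_apply,
      LinearMap.toMatrix'_apply]
    have h2 := delta_map X Y (toM (Pi.single q' (1 : R))) (g.mapMatrix (m := Fin N))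
      (φ (FreeAlgebra.ι K q.1))
    have h3 : (fun i => g.mapMatrix (m := Fin N) (toM (Pi.single q' (1 : R)) i)) =
        toM (Pi.single q' (1 : R')) := by
      funext i
      ext a b
      change g ((Pi.single q' (1 : R) : ι × Fin N × Fin N → R) (i, a, b)) =
        (Pi.single q' (1 : R') : ι × Fin N × Fin N → R') (i, a, b)
      rw [Pi.single_apply, Pi.single_apply]
      split_ifs
      · exact map_one g
      · exact map_zero g
    rw [h3] at h2
    exact congrFun (congrFun h2 q.2.1) q.2.2
  rw [h1, ← RingHom.map_det]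
  rfl

end Op

section Main

variable [Fintype ι] [DecidableEq ι] {N : ℕ} {L : Type} [Field L] [Algebra K L]

/-- The determinant is congruent to `1` if the matrix is. -/
theorem det_congr {J : Type} [Fintype J] [DecidableEq J] {R : Type} [CommRing R] (t : R)
    (M : Matrix J J R) (h : ∀ i j, t ∣ M i j - (1 : Matrix J J R) i j) : t ∣ M.det - 1 := by
  have h1 : (Ideal.Quotient.mk (Ideal.span {t})).mapMatrix M = 1 := by
    ext i j
    rw [RingHom.mapMatrix_apply, Matrix.map_apply]
    have h2 : Ideal.Quotient.mk (Ideal.span {t}) (M i j) =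
        Ideal.Quotient.mk (Ideal.span {t}) ((1 : Matrix J J R) i j) :=
      Ideal.Quotient.eq.2 (Ideal.mem_span_singleton.2 (h i j))
    rw [h2, Matrix.one_apply, Matrix.one_apply]
    split_ifs
    · exact map_one _
    · exact map_zero _
  have h3 := RingHom.map_det (Ideal.Quotient.mk (Ideal.span {t})) M
  rw [h1, Matrix.det_one] at h3
  rw [← Ideal.mem_span_singleton, ← Ideal.Quotient.eq, h3, map_one]

/-- The tuple of matrices `t X i`. -/
noncomputable def scaled (X : ι → Matrix (Fin N) (Fin N) L) : ι → Matrix (Fin N) (Fin N) L[X] :=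
  fun i => (Polynomial.X : L[X]) • (X i).map Polynomial.C

theorem dvd_delta (X Y : ι → Matrix (Fin N) (Fin N) L) (H : ι → Matrix (Fin N) (Fin N) L[X])
    {m : ℕ} {w : FreeAlgebra K ι} (hw : w ∈ idealPow K ι m) (a b : Fin N) :
    (Polynomial.X : L[X]) ^ (m - 1) ∣ delta (scaled X) (scaled Y) H w a b := by
  induction hw using Submodule.span_induction with
  | mem w hw =>
    obtain ⟨l, hl, rfl⟩ := hw
    have h1 := delta_word (K := K) (fun i => (X i).map Polynomial.C)
      (fun i => (Y i).map Polynomial.C) H (Polynomial.X : L[X]) l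
    have h2 : delta (scaled X) (scaled Y) H (l.map (FreeAlgebra.ι K)).prod a b =
        (Polynomial.X : L[X]) ^ (l.length - 1) * delta (fun i => (X i).map Polynomial.C)
          (fun i => (Y i).map Polynomial.C) H (word K l) a b := congrFun (congrFun h1 a) b
    rw [h2]
    exact Dvd.dvd.mul_right (pow_dvd_pow _ (by omega)) _
  | zero => rw [delta_zero]; exact dvd_zero _
  | add x y _ _ hx hy => rw [delta_add]; exact dvd_add hx hy
  | smul r x _ hx =>
    rw [delta_smul, Matrix.smul_apply, Algebra.smul_def]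
    exact Dvd.dvd.mul_left hx _

theorem deg_delta (X Y H : ι → Matrix (Fin N) (Fin N) L) {d : ℕ} {w : FreeAlgebra K ι}
    (hw : w ∈ low K ι d) (a b : Fin N) :
    (delta (scaled X) (scaled Y) (fun i => (H i).map Polynomial.C) w a b).natDegree ≤ d := by
  induction hw using Submodule.span_induction with
  | mem w hw =>
    obtain ⟨l, hl, rfl⟩ := hw
    have h1 := delta_word (K := K) (fun i => (X i).map Polynomial.C)
      (fun i => (Y i).map Polynomial.C) (fun i => (H i).map Polynomial.C) (Polynomial.X : L[X]) l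
    have h3 := delta_map X Y H ((IsScalarTower.toAlgHom K L L[X]).mapMatrix (m := Fin N))
      (word K l)
    have h2 : delta (scaled X) (scaled Y) (fun i => (H i).map Polynomial.C)
        (l.map (FreeAlgebra.ι K)).prod a b =
        (Polynomial.X : L[X]) ^ (l.length - 1) * Polynomial.C (delta X Y H (word K l) a b) := by
      refine (congrFun (congrFun h1 a) b).trans ?_
      change (Polynomial.X : L[X]) ^ (l.length - 1) * _ = _
      congr 1
      exact congrFun (congrFun h3 a) b
    rw [h2, mul_comm]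
    exact (natDegree_C_mul_X_pow_le _ _).trans (by omega)
  | zero => rw [delta_zero]; simp
  | add x y _ _ hx hy =>
    rw [delta_add]
    exact (natDegree_add_le _ _).trans (max_le hx hy)
  | smul r x _ hx =>
    rw [delta_smul, Matrix.smul_apply, Algebra.smul_def]
    refine natDegree_mul_le.trans ?_
    have h1 : (algebraMap K L[X] r).natDegree = 0 := by
      rw [IsScalarTower.algebraMap_apply K L L[X]]
      exact natDegree_C _
    omega

/-- The determinant of the divided difference of a good endomorphism is constant. -/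
theorem det_eq {φ : FreeAlgebra K ι →ₐ[K] FreeAlgebra K ι} (hφ : IsGood φ)
    (X Y : ι → Matrix (Fin N) (Fin N) L) : (LinearMap.toMatrix' (op φ X Y)).det ≠ 0 ∧
      (LinearMap.toMatrix' (op φ (fun _ => (0 : Matrix (Fin N) (Fin N) L)) fun _ => 0)).det =
        (LinearMap.toMatrix' (op φ X Y)).det := by
  choose d hd using fun i => exists_low (φ (FreeAlgebra.ι K i))
  set e : ℕ := ∑ i, d i with he
  have hde : ∀ i, φ (FreeAlgebra.ι K i) ∈ low K ι e := fun i =>
    low_mono (Finset.single_le_sum (f := d) (fun _ _ => Nat.zero_le _) (Finset.mem_univ i)) (hd i)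
  set B : ℕ := Fintype.card (ι × Fin N × Fin N) * e with hB
  obtain ⟨ψ, θ, hφψ, hψ⟩ := hφ (B + 2) (by omega)
  set D : L[X] := (LinearMap.toMatrix' (op φ (scaled X) (scaled Y))).det with hD
  -- the degree
  have hdeg : D.natDegree ≤ B := by
    rw [hD, Matrix.det_apply]
    refine natDegree_sum_le_of_forall_le _ _ fun σ _ => ?_
    refine (natDegree_smul_le _ _).trans ((natDegree_prod_le _ _).trans ?_)
    refine (Finset.sum_le_card_nsmul _ _ e fun q _ => ?_).trans ?_
    · rw [LinearMap.toMatrix'_apply]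
      have h1 : toM (Pi.single q (1 : L[X])) =
          fun i => (toM (Pi.single q (1 : L)) i).map Polynomial.C := by
        funext i
        ext1 a b
        change (Pi.single q (1 : L[X]) : ι × Fin N × Fin N → L[X]) (i, a, b) =
          Polynomial.C ((Pi.single q (1 : L) : ι × Fin N × Fin N → L) (i, a, b))
        rw [Pi.single_apply, Pi.single_apply]
        split_ifs
        · exact Polynomial.C_1.symm
        · exact Polynomial.C_0.symm
      change (delta (scaled X) (scaled Y) (toM (Pi.single q (1 : L[X])))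
        (φ (FreeAlgebra.ι K (σ q).1)) (σ q).2.1 (σ q).2.2).natDegree ≤ e
      rw [h1]
      exact deg_delta X Y _ (hde _) _ _
    · rw [Finset.card_univ, smul_eq_mul]
  -- the congruence
  have hcong : (Polynomial.X : L[X]) ^ (B + 1) ∣
      (LinearMap.toMatrix' (op ψ (scaled X) (scaled Y))).det - 1 := by
    refine det_congr _ _ fun q q' => ?_
    rw [LinearMap.toMatrix'_apply]
    have h1 : op ψ (scaled X) (scaled Y) (Pi.single q' 1) q -
        (1 : Matrix (ι × Fin N × Fin N) (ι × Fin N × Fin N) L[X]) q q' =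
        delta (scaled X) (scaled Y) (toM (Pi.single q' (1 : L[X])))
          (ψ (FreeAlgebra.ι K q.1) - FreeAlgebra.ι K q.1) q.2.1 q.2.2 := by
      have h2 : ψ (FreeAlgebra.ι K q.1) =
        (ψ (FreeAlgebra.ι K q.1) - FreeAlgebra.ι K q.1) + FreeAlgebra.ι K q.1 := by abel
      have h3 : op ψ (scaled X) (scaled Y) (Pi.single q' 1) q =
        delta (scaled X) (scaled Y) (toM (Pi.single q' (1 : L[X])))
          (ψ (FreeAlgebra.ι K q.1)) q.2.1 q.2.2 := rfl
      rw [h3]
      conv_lhs => rw [h2]
      rw [delta_add, Matrix.add_apply, delta_ι, add_sub_assoc, add_eq_left, sub_eq_zero]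
      change (Pi.single q' (1 : L[X]) : ι × Fin N × Fin N → L[X]) q = _
      rw [Pi.single_apply, Matrix.one_apply]
    rw [h1]
    have h4 := dvd_delta X Y (toM (Pi.single q' (1 : L[X]))) (hψ q.1) q.2.1 q.2.2
    exact h4
  -- the product formula
  have hprod := det_comp ψ θ.toAlgHom (scaled X) (scaled Y)
  rw [← hφψ, ← hD] at hprod
  obtain ⟨c, hc, hc'⟩ := Polynomial.isUnit_iff.1 (isUnit_det θ
    (fun i => FreeAlgebra.lift K (scaled X) (ψ (FreeAlgebra.ι K i)))
    (fun i => FreeAlgebra.lift K (scaled Y) (ψ (FreeAlgebra.ι K i))))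
  rw [← hc'] at hprod
  have hDc : D = Polynomial.C c := by
    have h1 : (Polynomial.X : L[X]) ^ (B + 1) ∣ D - Polynomial.C c := by
      rw [hprod]
      have h2 : Polynomial.C c * (LinearMap.toMatrix' (op ψ (scaled X) (scaled Y))).det -
        Polynomial.C c = Polynomial.C c *
          ((LinearMap.toMatrix' (op ψ (scaled X) (scaled Y))).det - 1) := by ring
      rw [h2]
      exact Dvd.dvd.mul_left hcong _
    by_contra hne
    have h2 : D - Polynomial.C c ≠ 0 := sub_ne_zero.2 hne
    have h3 := natDegree_le_of_dvd h1 h2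
    rw [natDegree_X_pow] at h3
    have h4 := natDegree_sub_le D (Polynomial.C c)
    rw [natDegree_C, max_eq_left (Nat.zero_le _)] at h4
    omega
  -- evaluation at `1` and `0`
  have h1 := det_map ((Polynomial.aeval (1 : L)).restrictScalars K) φ (scaled X) (scaled Y)
  have h2 : ∀ Z : ι → Matrix (Fin N) (Fin N) L, (fun i => (scaled Z i).map
      ((Polynomial.aeval (1 : L)).restrictScalars K : L[X] →ₐ[K] L)) = Z := by
    intro Z
    funext i
    ext a b
    simp [scaled]
  rw [h2, h2, ← hD, hDc] at h1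
  have h3 := det_map ((Polynomial.aeval (0 : L)).restrictScalars K) φ (scaled X) (scaled Y)
  have h4 : ∀ Z : ι → Matrix (Fin N) (Fin N) L, (fun i => (scaled Z i).map
      ((Polynomial.aeval (0 : L)).restrictScalars K : L[X] →ₐ[K] L)) = fun _ => 0 := by
    intro Z
    funext i
    ext a b
    simp [scaled]
  rw [h4, h4, ← hD, hDc] at h3
  constructor
  · rw [h1]
    simpa using hc.ne_zero
  · rw [h1, h3]
    simp

/-- The determinant of the divided difference of a good endomorphism is the same nonzero constant for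
all commutative algebras. -/
theorem det_const {φ : FreeAlgebra K ι →ₐ[K] FreeAlgebra K ι} (hφ : IsGood φ) {R : Type}
    [CommRing R] [Algebra K R] (X Y : ι → Matrix (Fin N) (Fin N) R) :
    IsUnit (LinearMap.toMatrix' (op φ X Y)).det := by
  let J := ι × Fin N × Fin N
  let Rg := MvPolynomial (J ⊕ J) K
  let Xg : ι → Matrix (Fin N) (Fin N) Rg :=
    fun i => Matrix.of fun a b => MvPolynomial.X (Sum.inl (i, a, b))
  let Yg : ι → Matrix (Fin N) (Fin N) Rg :=
    fun i => Matrix.of fun a b => MvPolynomial.X (Sum.inr (i, a, b))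
  let g₀ : Rg →ₐ[K] FractionRing Rg := IsScalarTower.toAlgHom K Rg (FractionRing Rg)
  obtain ⟨h1, h2⟩ := det_eq (L := FractionRing Rg) hφ (fun i => (Xg i).map g₀)
    (fun i => (Yg i).map g₀)
  have h3 := det_map g₀ φ Xg Yg
  have h4 := det_map (Algebra.ofId K (FractionRing Rg)) φ
    (fun _ => (0 : Matrix (Fin N) (Fin N) K)) fun _ => 0
  have h5 : (fun _ : ι => (0 : Matrix (Fin N) (Fin N) K).map
      (Algebra.ofId K (FractionRing Rg))) = fun _ => 0 := by
    funext i
    ext a b
    simp
  rw [h5, h2, h3] at h4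
  rw [h3] at h1
  set c : K := (LinearMap.toMatrix' (op φ (fun _ => (0 : Matrix (Fin N) (Fin N) K))
    fun _ => 0)).det with hc
  have h6 : (LinearMap.toMatrix' (op φ Xg Yg)).det = algebraMap K Rg c := by
    apply IsFractionRing.injective Rg (FractionRing Rg)
    rw [← IsScalarTower.algebraMap_apply]
    exact h4
  have hc0 : c ≠ 0 := by
    intro h0
    rw [h6, h0, map_zero, map_zero] at h1
    exact h1 rfl
  let g : Rg →ₐ[K] R := MvPolynomial.aeval
    (Sum.elim (fun q : J => X q.1 q.2.1 q.2.2) fun q : J => Y q.1 q.2.1 q.2.2)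
  have h7 := det_map g φ Xg Yg
  have h8 : (fun i => (Xg i).map g) = X := by
    funext i
    ext a b
    change g (MvPolynomial.X (Sum.inl (i, a, b))) = X i a b
    exact MvPolynomial.aeval_X _ _
  have h9 : (fun i => (Yg i).map g) = Y := by
    funext i
    ext a b
    change g (MvPolynomial.X (Sum.inr (i, a, b))) = Y i a b
    exact MvPolynomial.aeval_X _ _
  rw [h8, h9, h6, AlgHom.commutes] at h7
  rw [h7]
  exact (isUnit_iff_ne_zero.2 hc0).map (algebraMap K R)

/-- The map on tuples of matrices defined by an endomorphism of the free algebra. -/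
noncomputable def matrixMap (φ : FreeAlgebra K ι →ₐ[K] FreeAlgebra K ι) (R : Type) [CommRing R]
    [Algebra K R] (N : ℕ) (X : ι → Matrix (Fin N) (Fin N) R) : ι → Matrix (Fin N) (Fin N) R :=
  fun i => FreeAlgebra.lift K X (φ (FreeAlgebra.ι K i))

theorem injective {φ : FreeAlgebra K ι →ₐ[K] FreeAlgebra K ι} (hφ : IsGood φ) (R : Type)
    [CommRing R] [Algebra K R] (N : ℕ) : Function.Injective (matrixMap φ R N) := by
  intro X Y hXY
  have h1 : op φ X Y (fun q => X q.1 q.2.1 q.2.2 - Y q.1 q.2.1 q.2.2) = 0 := by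
    funext q
    have h2 := delta_sub_self X Y (φ (FreeAlgebra.ι K q.1))
    have h3 : FreeAlgebra.lift K X (φ (FreeAlgebra.ι K q.1)) =
      FreeAlgebra.lift K Y (φ (FreeAlgebra.ι K q.1)) := congrFun hXY q.1
    rw [h3, sub_self] at h2
    exact congrFun (congrFun h2 q.2.1) q.2.2
  have h2 := det_const hφ X Y
  have h3 : (LinearMap.toMatrix' (op φ X Y))⁻¹.mulVec ((LinearMap.toMatrix' (op φ X Y)).mulVec
      (fun q => X q.1 q.2.1 q.2.2 - Y q.1 q.2.1 q.2.2)) =
      fun q => X q.1 q.2.1 q.2.2 - Y q.1 q.2.1 q.2.2 := by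
    rw [Matrix.mulVec_mulVec, Matrix.nonsing_inv_mul _ h2, Matrix.one_mulVec]
  rw [LinearMap.toMatrix'_mulVec, h1, Matrix.mulVec_zero] at h3
  funext i
  ext a b
  have h4 := congrFun h3 (i, a, b)
  exact (sub_eq_zero.1 h4.symm)

theorem surjective {φ : FreeAlgebra K ι →ₐ[K] FreeAlgebra K ι} (hφ : IsGood φ) (L : Type)
    [Field L] [IsAlgClosed L] [Algebra K L] (N : ℕ) : Function.Surjective (matrixMap φ L N) := by
  let J := ι × Fin N × Fin N
  let G : ι → Matrix (Fin N) (Fin N) (MvPolynomial J L) :=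
    fun i => Matrix.of fun a b => MvPolynomial.X (i, a, b)
  let P : J → MvPolynomial J L := fun q =>
    FreeAlgebra.lift K G (φ (FreeAlgebra.ι K q.1)) q.2.1 q.2.2
  have h1 : ∀ (v : J → L) (q : J), MvPolynomial.eval v (P q) =
      matrixMap φ L N (toM v) q.1 q.2.1 q.2.2 := by
    intro v q
    let g : MvPolynomial J L →ₐ[K] L := (MvPolynomial.aeval v).restrictScalars K
    have h2 := lift_map G (g.mapMatrix (m := Fin N)) (φ (FreeAlgebra.ι K q.1))
    have h3 : (fun i => g.mapMatrix (m := Fin N) (G i)) = toM v := by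
      funext i
      ext a b
      simp [G, g, toM]
    rw [h3] at h2
    exact (congrFun (congrFun h2 q.2.1) q.2.2).symm
  have h2 : Function.Surjective fun (v : J → L) q => MvPolynomial.eval v (P q) := by
    refine ax_grothendieck_univ P fun v w hvw => ?_
    have h3 : matrixMap φ L N (toM v) = matrixMap φ L N (toM w) := by
      funext i
      ext a b
      have h4 := congrFun hvw (i, a, b)
      simp only [h1] at h4
      exact h4
    have h4 := injective hφ L N h3
    funext q
    exact congrFun (congrFun (congrFun h4 q.1) q.2.1) q.2.2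
  intro Z
  obtain ⟨v, hv⟩ := h2 fun q => Z q.1 q.2.1 q.2.2
  refine ⟨toM v, ?_⟩
  funext i
  ext a b
  have h3 := congrFun hv (i, a, b)
  simp only [h1] at h3
  exact h3

end Main

end Pool.Agent.Q221.FA
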