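import Pool.Agent.Q221.FA.Good
import Pool.Agent.Q221.FA.Alg

/-!
# Good endomorphisms induce automorphisms of the spaces of tuples of matrices
-/

set_option autoImplicit false

set_option linter.unusedSectionVars false

namespace Pool.Agent.Q221.FA

variable {K : Type} [Field K] {ι : Type} [Fintype ι] [DecidableEq ι] {N : ℕ}

theorem mat_map {R R' : Type} [CommRing R] [Algebra K R] [CommRing R'] [Algebra K R']
    (g : R →ₐ[K] R') (φ : FreeAlgebra K ι →ₐ[K] FreeAlgebra K ι)
    (X Y : ι → Matrix (Fin N) (Fin N) R) (q q' : ι × Fin N × Fin N) :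
    LinearMap.toMatrix' (op φ (fun i => (X i).map g) (fun i => (Y i).map g)) q q' =
      g (LinearMap.toMatrix' (op φ X Y) q q') := by
  rw [LinearMap.toMatrix'_apply, LinearMap.toMatrix'_apply]
  have h2 := delta_map X Y (toM (Pi.single q' (1 : R))) (g.mapMatrix (m := Fin N))
    (φ (FreeAlgebra.ι K q.1))
  have h3 : (fun i => g.mapMatrix (m := Fin N) (toM (Pi.single q' (1 : R)) i)) =
      toM (Pi.single q' (1 : R')) := by
    funext i
    ext a b
    change g ((Pi.single q' (1 : R) : ι × Fin N × Fin N → R) (i, a, b)) =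
      (Pi.single q' (1 : R') : ι × Fin N × Fin N → R') (i, a, b)
    rw [Pi.single_apply, Pi.single_apply]
    split_ifs
    · exact map_one g
    · exact map_zero g
  rw [h3] at h2
  exact congrFun (congrFun h2 q.2.1) q.2.2

theorem matrixMap_map {R R' : Type} [CommRing R] [Algebra K R] [CommRing R'] [Algebra K R']
    (g : R →ₐ[K] R') (φ : FreeAlgebra K ι →ₐ[K] FreeAlgebra K ι) (v : ι × Fin N × Fin N → R)
    (q : ι × Fin N × Fin N) :
    matrixMap φ R' N (toM fun q => g (v q)) q.1 q.2.1 q.2.2 =
      g (matrixMap φ R N (toM v) q.1 q.2.1 q.2.2) := by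
  have h2 := lift_map (toM v) (g.mapMatrix (m := Fin N)) (φ (FreeAlgebra.ι K q.1))
  have h3 : (fun i => g.mapMatrix (m := Fin N) (toM v i)) = toM fun q => g (v q) := rfl
  rw [h3] at h2
  exact congrFun (congrFun h2 q.2.1) q.2.2

/-- The homomorphism of coordinate rings which corresponds to the map on tuples of matrices. -/
noncomputable def comorph (φ : FreeAlgebra K ι →ₐ[K] FreeAlgebra K ι) (N : ℕ) :
    MvPolynomial (ι × Fin N × Fin N) K →ₐ[K] MvPolynomial (ι × Fin N × Fin N) K :=
  MvPolynomial.aeval fun q =>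
    matrixMap φ (MvPolynomial (ι × Fin N × Fin N) K) N (toM MvPolynomial.X) q.1 q.2.1 q.2.2

theorem point {R : Type} [CommRing R] [Algebra K R] (φ : FreeAlgebra K ι →ₐ[K] FreeAlgebra K ι)
    (α : MvPolynomial (ι × Fin N × Fin N) K →ₐ[K] R) (q : ι × Fin N × Fin N) :
    α (comorph φ N (MvPolynomial.X q)) =
      matrixMap φ R N (toM fun q => α (MvPolynomial.X q)) q.1 q.2.1 q.2.2 := by
  rw [comorph, MvPolynomial.aeval_X, matrixMap_map]

theorem comorph_bijective {φ : FreeAlgebra K ι →ₐ[K] FreeAlgebra K ι} (hφ : IsGood φ) (N : ℕ) :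
    Function.Bijective (comorph φ N) := by
  have hfC : ∀ r : K, comorph φ N (MvPolynomial.C r) = MvPolynomial.C r := fun r =>
    (comorph φ N).commutes r
  refine bij_of (comorph φ N).toRingHom (fp_of _) ?_ ?_ ?_
  · intro T _ I hI α β hβ
    let _ : Algebra K T := (α.comp MvPolynomial.C).toAlgebra
    let α' : MvPolynomial (ι × Fin N × Fin N) K →ₐ[K] T := { α with commutes' := fun r => rfl }
    have hβC : ∀ r : K, β (MvPolynomial.C r) = algebraMap K (T ⧸ I) r := by
      intro r
      have h1 := congrArg (fun g => g (MvPolynomial.C r)) hβ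
      have h2 : β (comorph φ N (MvPolynomial.C r)) =
        Ideal.Quotient.mk I (α (MvPolynomial.C r)) := h1
      rw [hfC] at h2
      exact h2
    let β' : MvPolynomial (ι × Fin N × Fin N) K →ₐ[K] T ⧸ I := { β with commutes' := hβC }
    choose v hv using fun q : ι × Fin N × Fin N =>
      Ideal.Quotient.mk_surjective (β (MvPolynomial.X q))
    set w : ι × Fin N × Fin N → T := fun q =>
      matrixMap φ T N (toM v) q.1 q.2.1 q.2.2 - α (MvPolynomial.X q) with hw
    have hwI : ∀ q, w q ∈ I := by
      intro q
      rw [← Ideal.Quotient.eq_zero_iff_mem, hw, map_sub, sub_eq_zero]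
      have h1 := matrixMap_map (Ideal.Quotient.mkₐ K I) φ v q
      have h2 : (fun q => Ideal.Quotient.mkₐ K I (v q)) = fun q => β' (MvPolynomial.X q) :=
        funext fun q => hv q
      rw [h2, ← point φ β' q] at h1
      have h3 : β' (comorph φ N (MvPolynomial.X q)) =
        Ideal.Quotient.mk I (α (MvPolynomial.X q)) :=
        congrArg (fun g => g (MvPolynomial.X q)) hβ
      rw [← h3, h1]
      rfl
    set M := LinearMap.toMatrix' (op φ (toM v) (toM v)) with hM
    have hdet : IsUnit M.det := det_const hφ _ _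
    set h : ι × Fin N × Fin N → T := - (M⁻¹.mulVec w) with hh
    have hhI : ∀ q, h q ∈ I := by
      intro q
      rw [hh, Pi.neg_apply]
      refine I.neg_mem ?_
      rw [Matrix.mulVec, dotProduct]
      exact I.sum_mem fun q' _ => I.mul_mem_left _ (hwI q')
    have hII : ∀ x ∈ I, ∀ y ∈ I, x * y = 0 := by
      intro x hx y hy
      have h1 : x * y ∈ I ^ 2 := by
        rw [pow_two]
        exact Ideal.mul_mem_mul hx hy
      rw [hI] at h1
      exact h1
    have hM' : (LinearMap.toMatrix' (op φ (toM fun q => v q + h q) (toM v))).mulVec h =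
        M.mulVec h := by
      funext q
      rw [Matrix.mulVec, Matrix.mulVec, dotProduct, dotProduct]
      refine Finset.sum_congr rfl fun q' _ => ?_
      rw [← sub_eq_zero, ← sub_mul]
      refine hII _ ?_ _ (hhI q')
      rw [← Ideal.Quotient.eq_zero_iff_mem, map_sub, sub_eq_zero]
      have h1 := mat_map (Ideal.Quotient.mkₐ K I) φ (toM fun q => v q + h q) (toM v) q q'
      have h2 := mat_map (Ideal.Quotient.mkₐ K I) φ (toM v) (toM v) q q'
      have h3 : (fun i => (toM (fun q => v q + h q) i).map (Ideal.Quotient.mkₐ K I)) =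
          fun i => (toM v i).map (Ideal.Quotient.mkₐ K I) := by
        funext i
        ext a b
        change Ideal.Quotient.mk I (v (i, a, b) + h (i, a, b)) = Ideal.Quotient.mk I (v (i, a, b))
        rw [map_add, Ideal.Quotient.eq_zero_iff_mem.2 (hhI _), add_zero]
      rw [h3, h2] at h1
      exact h1.symm
    have hY : ∀ q, matrixMap φ T N (toM fun q => v q + h q) q.1 q.2.1 q.2.2 =
        α (MvPolynomial.X q) := by
      intro q
      have h1 := delta_sub_self (toM fun q => v q + h q) (toM v) (φ (FreeAlgebra.ι K q.1))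
      have h2 : (fun i => toM (fun q => v q + h q) i - toM v i) = toM h := by
        funext i
        ext a b
        change v (i, a, b) + h (i, a, b) - v (i, a, b) = h (i, a, b)
        ring
      rw [h2] at h1
      have h3 : op φ (toM fun q => v q + h q) (toM v) h q =
          matrixMap φ T N (toM fun q => v q + h q) q.1 q.2.1 q.2.2 -
            matrixMap φ T N (toM v) q.1 q.2.1 q.2.2 :=
        congrFun (congrFun h1 q.2.1) q.2.2
      rw [← LinearMap.toMatrix'_mulVec, hM'] at h3
      have h4 : M.mulVec h = - w := by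
        rw [hh, Matrix.mulVec_neg, Matrix.mulVec_mulVec, Matrix.mul_nonsing_inv _ hdet,
          Matrix.one_mulVec]
      rw [h4, Pi.neg_apply, hw] at h3
      linear_combination -h3
    refine ⟨(MvPolynomial.aeval fun q => v q + h q :
      MvPolynomial (ι × Fin N × Fin N) K →ₐ[K] T).toRingHom, ?_, ?_⟩
    · refine MvPolynomial.ringHom_ext (fun r => ?_) fun q => ?_
      · change (MvPolynomial.aeval fun q => v q + h q :
          MvPolynomial (ι × Fin N × Fin N) K →ₐ[K] T) (comorph φ N (MvPolynomial.C r)) = _
        rw [hfC, MvPolynomial.aeval_C]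
        rfl
      · change (MvPolynomial.aeval fun q => v q + h q :
          MvPolynomial (ι × Fin N × Fin N) K →ₐ[K] T) (comorph φ N (MvPolynomial.X q)) = _
        rw [point]
        simp only [MvPolynomial.aeval_X]
        exact hY q
    · refine MvPolynomial.ringHom_ext (fun r => ?_) fun q => ?_
      · rw [hβC]
        change Ideal.Quotient.mk I ((MvPolynomial.aeval fun q => v q + h q :
          MvPolynomial (ι × Fin N × Fin N) K →ₐ[K] T) (MvPolynomial.C r)) = _
        rw [MvPolynomial.aeval_C]
        rfl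
      · change Ideal.Quotient.mk I ((MvPolynomial.aeval fun q => v q + h q :
          MvPolynomial (ι × Fin N × Fin N) K →ₐ[K] T) (MvPolynomial.X q)) = _
        rw [MvPolynomial.aeval_X, map_add, Ideal.Quotient.eq_zero_iff_mem.2 (hhI q), add_zero]
        exact hv q
  · intro T _ α β hαβ
    let _ : Algebra K T := (α.comp MvPolynomial.C).toAlgebra
    let α' : MvPolynomial (ι × Fin N × Fin N) K →ₐ[K] T := { α with commutes' := fun r => rfl }
    have hβC : ∀ r : K, β (MvPolynomial.C r) = algebraMap K T r := by
      intro r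
      have h1 : α (comorph φ N (MvPolynomial.C r)) = β (comorph φ N (MvPolynomial.C r)) :=
        congrArg (fun g => g (MvPolynomial.C r)) hαβ
      rw [hfC] at h1
      exact h1.symm
    let β' : MvPolynomial (ι × Fin N × Fin N) K →ₐ[K] T := { β with commutes' := hβC }
    have h1 : toM (fun q => α' (MvPolynomial.X q)) = toM fun q => β' (MvPolynomial.X q) := by
      refine injective hφ T N ?_
      funext i
      ext a b
      have h2 := point φ α' (i, a, b)
      have h3 := point φ β' (i, a, b)
      have h4 : α' (comorph φ N (MvPolynomial.X (i, a, b))) =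
        β' (comorph φ N (MvPolynomial.X (i, a, b))) :=
        congrArg (fun g => g (MvPolynomial.X (i, a, b))) hαβ
      rw [h2, h3] at h4
      exact h4
    refine MvPolynomial.ringHom_ext (fun r => ?_) fun q => ?_
    · rw [hβC]
      rfl
    · exact congrFun (congrFun (congrFun h1 q.1) q.2.1) q.2.2
  · intro L _ _ α
    let _ : Algebra K L := (α.comp MvPolynomial.C).toAlgebra
    obtain ⟨X, hX⟩ := surjective hφ L N (toM fun q => α (MvPolynomial.X q))
    refine ⟨(MvPolynomial.aeval fun q => X q.1 q.2.1 q.2.2 :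
      MvPolynomial (ι × Fin N × Fin N) K →ₐ[K] L).toRingHom, ?_⟩
    refine MvPolynomial.ringHom_ext (fun r => ?_) fun q => ?_
    · change (MvPolynomial.aeval fun q => X q.1 q.2.1 q.2.2 :
        MvPolynomial (ι × Fin N × Fin N) K →ₐ[K] L) (comorph φ N (MvPolynomial.C r)) = _
      rw [hfC, MvPolynomial.aeval_C]
      rfl
    · change (MvPolynomial.aeval fun q => X q.1 q.2.1 q.2.2 :
        MvPolynomial (ι × Fin N × Fin N) K →ₐ[K] L) (comorph φ N (MvPolynomial.X q)) = _
      rw [point]
      simp only [MvPolynomial.aeval_X]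
      have h1 : (toM fun q : ι × Fin N × Fin N => X q.1 q.2.1 q.2.2) = X := rfl
      rw [h1, hX]
      rfl

/-- A good endomorphism of the free algebra induces bijections on the tuples of matrices over all
commutative algebras. -/
theorem bijective {φ : FreeAlgebra K ι →ₐ[K] FreeAlgebra K ι} (hφ : IsGood φ) (R : Type)
    [CommRing R] [Algebra K R] (N : ℕ) : Function.Bijective (matrixMap φ R N) := by
  refine ⟨injective hφ R N, fun Z => ?_⟩
  let e : MvPolynomial (ι × Fin N × Fin N) K ≃ₐ[K] MvPolynomial (ι × Fin N × Fin N) K :=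
    AlgEquiv.ofBijective (comorph φ N) (comorph_bijective hφ N)
  let α : MvPolynomial (ι × Fin N × Fin N) K →ₐ[K] R :=
    MvPolynomial.aeval fun q => Z q.1 q.2.1 q.2.2
  let β : MvPolynomial (ι × Fin N × Fin N) K →ₐ[K] R := α.comp e.symm.toAlgHom
  refine ⟨toM fun q => β (MvPolynomial.X q), ?_⟩
  funext i
  ext a b
  have h1 := point φ β (i, a, b)
  have h2 : β (comorph φ N (MvPolynomial.X (i, a, b))) = α (MvPolynomial.X (i, a, b)) := by
    change α (e.symm (e (MvPolynomial.X (i, a, b)))) = _
    rw [AlgEquiv.symm_apply_apply]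
  rw [h2] at h1
  rw [← h1]
  exact MvPolynomial.aeval_X _ _

end Pool.Agent.Q221.FA
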